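import Pool.Agent.H94.CC.Stmts

/-!
Project CC: module PLF (the notions for the game, for sequences given by set functions)
-/

set_option linter.unusedVariables false
set_option linter.unusedSectionVars false
set_option synthInstance.maxSize 100000

namespace SW.CC

theorem plf_res {M : Type} [SetStr M] [ZF M] {g x r : M} (c : M → M) (hc : Fn1 c)
    (hg : Ord g) (hx : E x g) : IsRestr r (gr g c) x ↔ r = gr (suc x) c := by
  have hsub : Sub (suc x) g := (hg.mem hx).suc_sub hg hx
  have key : ∀ z : M, (E z (gr g c) ∧ ∃ i y, IsOP z i y ∧ (E i x ∨ i = x)) ↔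
      E z (gr (suc x) c) := by
    intro z
    rw [mem_gr' hc, mem_gr' hc]
    constructor
    · rintro ⟨⟨j, hj, rfl⟩, i, y, hz, hi⟩
      rw [isOP_iff, opair_inj] at hz
      obtain ⟨rfl, rfl⟩ := hz
      exact ⟨j, mem_suc.2 hi, rfl⟩
    · rintro ⟨j, hj, rfl⟩
      exact ⟨⟨j, hsub j hj, rfl⟩, j, c j, isOP_iff.2 rfl, mem_suc.1 hj⟩
  constructor
  · intro h
    exact ext fun z => (h z).trans (key z)
  · rintro rfl z
    exact (key z).symm

theorem cc_plf : PLFStmt := by
  intro M _ _
  refine ⟨fun c hc hg hx => plf_res c hc hg hx, ?_, ?_, ?_⟩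
  · intro g x s Z c hc hg hx
    unfold Answers
    constructor
    · rintro ⟨r, hr, h⟩
      rw [plf_res c hc hg hx] at hr
      subst hr
      exact pairIn_iff.1 h
    · intro h
      exact ⟨_, (plf_res c hc hg hx).2 rfl, pairIn_iff.2 h⟩
  · intro k s c x
    have hC : Cl (fun z : M => ∀ i Z : M, E i x → Answers s c i Z → E z Z) := by
      unfold Answers IsRestr; infer_instance
    refine ⟨sep k (fun z => ∀ i Z : M, E i x → Answers s c i Z → E z Z), ?_, ?_⟩
    · intro z
      rw [mem_sep' hC]
    · intro C' h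
      refine ext fun z => ?_
      rw [mem_sep' hC]
      exact h z
  · intro k s c g hp hg x r hx
    have hsub : Sub (suc x) g := (hg.mem hx).suc_sub hg hx
    have happ : ∀ i, E i g → ∀ y, E (opair i y) c ↔ y = app c i := by
      intro i hi y
      obtain ⟨A, hA, hA', -⟩ := hp i hi
      have e : app c i = A := the_eq (pairIn_iff.1 hA) fun z hz => hA' z (pairIn_iff.2 hz)
      rw [e]
      constructor
      · intro h; exact hA' y (pairIn_iff.2 h)
      · rintro rfl; exact pairIn_iff.1 hA
    have key : ∀ z : M, (E z c ∧ ∃ i y, IsOP z i y ∧ (E i x ∨ i = x)) ↔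
        E z (gr (suc x) (fun i => app c i)) := by
      intro z
      rw [mem_gr' inferInstance]
      constructor
      · rintro ⟨hz, i, y, hiy, hi⟩
        rw [isOP_iff] at hiy
        subst hiy
        have hi' : E i (suc x) := mem_suc.2 hi
        exact ⟨i, hi', by rw [← (happ i (hsub i hi') y).1 hz]⟩
      · rintro ⟨i, hi, rfl⟩
        exact ⟨(happ i (hsub i hi) _).2 rfl, i, _, isOP_iff.2 rfl, mem_suc.1 hi⟩
    constructor
    · intro h
      exact ext fun z => (h z).trans (key z)
    · rintro rfl z
      exact (key z).symm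

end SW.CC
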